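import Pool.Agent.Helper25.HL.Goals3

/-!
# Project HL: summability of the masses
-/

set_option autoImplicit false

open Filter Topology

noncomputable section

namespace Pool.Agent.Helper81.HL

open Pool.Agent.Helper25.HL

/-- Tonelli for nonnegative double families -/
theorem tonelli (F : ℕ → ℕ → ℝ) (h0 : ∀ j k, 0 ≤ F j k) (h1 : ∀ j, Summable (F j))
    (h2 : Summable (fun j => ∑' k, F j k)) :
    (∀ k, Summable (fun j => F j k)) ∧ Summable (fun k => ∑' j, F j k) ∧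
      ∑' k, ∑' j, F j k = ∑' j, ∑' k, F j k := by
  have hs : Summable (fun p : ℕ × ℕ => F p.1 p.2) :=
    (summable_prod_of_nonneg (f := fun p : ℕ × ℕ => F p.1 p.2) fun p => h0 p.1 p.2).2 ⟨h1, h2⟩
  have hs' : Summable (fun p : ℕ × ℕ => F p.2 p.1) := hs.prod_symm
  have h3 := (summable_prod_of_nonneg (f := fun p : ℕ × ℕ => F p.2 p.1) fun p => h0 p.2 p.1).1 hs'
  exact ⟨h3.1, h3.2, hs.tsum_comm⟩

theorem ms (h1 : S_LP2) (h2 : S_LPD) : S_MS := by
  intro P D ω u f hN
  have hr1 : ∀ j, Summable (fun k => ‖u j k‖ ^ 2) := fun j => (h1 P D (u j)).1.summable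
  have hr2 : ∀ j, Summable (fun k => ‖(f j).comp (emb P D k)‖ ^ 2) := fun j => (h2 P D (f j)).1
  have hr : ∀ j, Summable (fun k => ω j * (‖u j k‖ ^ 2 + ‖(f j).comp (emb P D k)‖ ^ 2)) :=
    fun j => ((hr1 j).add (hr2 j)).mul_left _
  have hn : ∀ j k, 0 ≤ ω j * (‖u j k‖ ^ 2 + ‖(f j).comp (emb P D k)‖ ^ 2) :=
    fun j k => mul_nonneg (hN.hω j) (by positivity)
  have hrow : ∀ j, ∑' k, ω j * (‖u j k‖ ^ 2 + ‖(f j).comp (emb P D k)‖ ^ 2) ≤ 2 * ω j := by
    intro j
    rw [tsum_mul_left, (hr1 j).tsum_add (hr2 j)]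
    have a1 : ∑' k, ‖u j k‖ ^ 2 ≤ 1 := by
      rw [(h1 P D (u j)).1.tsum_eq]
      have := hN.hu j
      nlinarith [norm_nonneg (u j)]
    have a2 : ∑' k, ‖(f j).comp (emb P D k)‖ ^ 2 ≤ 1 := by
      refine (h2 P D (f j)).2.trans ?_
      have := hN.hf j
      nlinarith [norm_nonneg (f j)]
    nlinarith [hN.hω j]
  have hsr : Summable (fun j => ∑' k, ω j * (‖u j k‖ ^ 2 + ‖(f j).comp (emb P D k)‖ ^ 2)) :=
    Summable.of_nonneg_of_le (fun j => tsum_nonneg (hn j)) hrow (hN.hs.mul_left 2)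
  obtain ⟨c1, c2, c3⟩ := tonelli _ hn hr hsr
  refine ⟨fun k => tsum_nonneg fun j => hn j k, c1, c2, ?_, ?_⟩
  · refine (le_of_eq c3).trans ?_
    refine (hsr.tsum_le_tsum hrow (hN.hs.mul_left 2)).trans ?_
    rw [tsum_mul_left]
    linarith [hN.h1]
  · intro S
    have gn : ∀ j k, 0 ≤ ω j * S.indicator (fun k => ‖u j k‖ ^ 2) k := fun j k =>
      mul_nonneg (hN.hω j) (Set.indicator_nonneg (fun _ _ => by positivity) _)
    have gle : ∀ j k, ω j * S.indicator (fun k => ‖u j k‖ ^ 2) k ≤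
        ω j * (‖u j k‖ ^ 2 + ‖(f j).comp (emb P D k)‖ ^ 2) := by
      intro j k
      refine mul_le_mul_of_nonneg_left ?_ (hN.hω j)
      refine (Set.indicator_le_self' (fun _ _ => by positivity) k).trans ?_
      have : 0 ≤ ‖(f j).comp (emb P D k)‖ ^ 2 := by positivity
      linarith
    have gr : ∀ j, Summable (fun k => ω j * S.indicator (fun k => ‖u j k‖ ^ 2) k) := fun j =>
      Summable.of_nonneg_of_le (gn j) (gle j) (hr j)
    have gsr : Summable (fun j => ∑' k, ω j * S.indicator (fun k => ‖u j k‖ ^ 2) k) :=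
      Summable.of_nonneg_of_le (fun j => tsum_nonneg (gn j))
        (fun j => (gr j).tsum_le_tsum (gle j) (hr j)) hsr
    obtain ⟨d1, d2, d3⟩ := tonelli _ gn gr gsr
    have e1 : (fun j => ω j * ∑' k, S.indicator (fun k => ‖u j k‖ ^ 2) k) =
        fun j => ∑' k, ω j * S.indicator (fun k => ‖u j k‖ ^ 2) k := by
      funext j
      rw [tsum_mul_left]
    rw [e1]
    refine ⟨gsr, ?_⟩
    rw [← d3]
    refine d2.tsum_le_tsum ?_ (c2.indicator S)
    intro k
    by_cases hk : k ∈ S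
    · rw [Set.indicator_of_mem hk]
      exact (d1 k).tsum_le_tsum (fun j => gle j k) (c1 k)
    · rw [Set.indicator_of_notMem hk]
      refine le_of_eq ?_
      have : ∀ j, ω j * S.indicator (fun k => ‖u j k‖ ^ 2) k = 0 := by
        intro j
        rw [Set.indicator_of_notMem hk, mul_zero]
      simp only [this, tsum_zero]

end Pool.Agent.Helper81.HL
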