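import Pool.Agent.Helper25.HL.Goals2

/-!
# Project HL: packet F3
-/

set_option autoImplicit false

namespace Pool.Agent.Helper81.HL

open Pool.Agent.Helper25.HL

theorem cnt_mono {p q : ℕ} {P Q : (Fin p → Fin q → Bool) → Prop} (h : ∀ σ, P σ → Q σ) :
    cnt P ≤ cnt Q := by
  classical
  unfold cnt
  apply Finset.card_le_card
  intro σ hσ
  rw [Finset.mem_filter] at hσ ⊢
  exact ⟨hσ.1, h σ hσ.2⟩

theorem l1_le {Z q : ℕ} {β : Fin q → ℂ} (h : GI Z β) : l1 β ≤ Z := by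
  obtain ⟨a, b, hab, hs⟩ := h
  have h1 : l1 β ≤ ∑ t, (|(a t : ℝ)| + |(b t : ℝ)|) := by
    unfold l1
    refine Finset.sum_le_sum fun t _ => ?_
    rw [hab t]
    refine (norm_add_le _ _).trans ?_
    rw [norm_mul, Complex.norm_I, mul_one, Complex.norm_intCast, Complex.norm_intCast]
  refine h1.trans ?_
  have h2 : ((∑ t, (|a t| + |b t|) : ℤ) : ℝ) ≤ ((Z : ℤ) : ℝ) := by exact_mod_cast hs
  push_cast at h2
  exact h2

theorem f3 (h1 : S_CH3) (h2 : S_EBS) (h3 : S_DEP) (h4 : S_FUB) (h5 : S_RL) : S_F3 := by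
  intro p q N Z L S γ hp hZ hL hS hGI hz hDj
  have hZ' : (1 : ℝ) ≤ Z := by exact_mod_cast hZ
  have hL' : (1 : ℝ) ≤ L := by exact_mod_cast hL
  have hp' : (1 : ℝ) ≤ p := by exact_mod_cast hp
  have hZ0 : (0 : ℝ) < Z := by linarith
  have hZ3 : (1 : ℝ) ≤ (Z : ℝ) ^ 3 := one_le_pow₀ hZ'
  have hN0 : (0 : ℝ) ≤ N := Nat.cast_nonneg N
  set L0 : ℝ := 8 * (Z : ℝ) ^ 3 * L with hL0
  have hL01 : 1 ≤ L0 := by
    rw [hL0]
    nlinarith
  refine h4 p q S (fun ρ σ => ¬ (∑ i, EB ρ S L0 (RV σ (γ i)) ≤ (N : ℝ) / Z))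
    (Real.exp (-((N : ℝ) * p / (16 * (Z : ℝ) ^ 3)))) (Real.exp_nonneg _) ?_ ?_ ?_
  · intro ρ ρ' σ hag h
    have e : ∀ v, EB ρ S L0 v = EB ρ' S L0 v := (h3 p q ρ ρ' S L0).1 hag
    simpa only [e] using h
  · intro ρ σ σ' hag h
    have e : ∀ i, RV σ (γ i) = RV σ' (γ i) := fun i => (h3 p q σ σ' S L0).2 hag (γ i) (hz i)
    simpa only [e] using h
  · intro ρ
    obtain ⟨D, f, hD, hf, hE⟩ := h2 p q ρ S L0 (1 / (2 * (Z : ℝ) ^ 3)) hp hL01 (by positivity)
    have hCH := h1 p q N D Z γ f hp hZ hGI hDj hf ((N : ℝ) / (2 * Z))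
    have hm : (cnt (fun σ : Fin p → Fin q → Bool =>
        ¬ (∑ i, EB ρ S L0 (RV σ (γ i)) ≤ (N : ℝ) / Z)) : ℝ) ≤
        (cnt (fun σ : Fin p → Fin q → Bool =>
          (N : ℝ) / (2 * Z) ≤ ∑ i, ∑ k, ‖∑ a, f k a * RV σ (γ i) a‖ ^ 2) : ℝ) := by
      apply Nat.cast_le.2
      apply cnt_mono
      intro σ hσ
      rw [not_le] at hσ
      have e1 : ∑ i, EB ρ S L0 (RV σ (γ i)) ≤
          ∑ i, (1 / (2 * Z) + ∑ k, ‖∑ a, f k a * RV σ (γ i) a‖ ^ 2) := by
        refine Finset.sum_le_sum fun i _ => (hE _).trans ?_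
        gcongr
        have e2 : Pool.Agent.Helper25.HL.sq (RV σ (γ i)) ≤ (Z : ℝ) ^ 2 := by
          refine (h5 p q σ hp (γ i)).trans ?_
          have e3 : 0 ≤ l1 (γ i) := Finset.sum_nonneg fun _ _ => norm_nonneg _
          exact pow_le_pow_left₀ e3 (l1_le (hGI i)) 2
        calc 1 / (2 * (Z : ℝ) ^ 3) * Pool.Agent.Helper25.HL.sq (RV σ (γ i)) ≤ 1 / (2 * (Z : ℝ) ^ 3) * (Z : ℝ) ^ 2 := by
              gcongr
          _ = 1 / (2 * (Z : ℝ)) := by
              field_simp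
      rw [Finset.sum_add_distrib, Finset.sum_const, Finset.card_univ, Fintype.card_fin,
        nsmul_eq_mul] at e1
      have e4 : (N : ℝ) / Z = N * (1 / (2 * Z)) + N / (2 * Z) := by
        field_simp
        ring
      linarith
    refine hm.trans (hCH.trans ?_)
    rw [mul_assoc]
    gcongr
    -- the dimension
    have hDp : (D : ℝ) * (32 * (Z : ℝ) ^ 3) ≤ p := by
      have e1 : (D : ℝ) * (1 / (2 * (Z : ℝ) ^ 3) * L0 ^ 2) = D * (32 * (Z : ℝ) ^ 3) * L * L := by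
        rw [hL0]
        field_simp
        ring
      have e2 : ((S.card : ℕ) : ℝ) ≤ L * p := by exact_mod_cast hS
      have e3 : (D : ℝ) * (32 * (Z : ℝ) ^ 3) * L * L ≤ p * L := by
        rw [← e1]
        linarith
      have hL1 : (0 : ℝ) < L := by linarith
      have e4 : (D : ℝ) * (32 * (Z : ℝ) ^ 3) * L ≤ p := le_of_mul_le_mul_right e3 hL1
      have e5 : 0 ≤ (D : ℝ) * (32 * (Z : ℝ) ^ 3) := by positivity
      nlinarith
    have h42 : (4 : ℝ) ≤ Real.exp 2 := by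
      have e1 := Real.add_one_le_exp (1 : ℝ)
      have e2 : Real.exp 2 = Real.exp 1 * Real.exp 1 := by
        rw [← Real.exp_add]
        norm_num
      rw [e2]
      nlinarith
    calc (4 : ℝ) ^ (N * D) * Real.exp (-((N : ℝ) / (2 * Z) * p / (4 * (Z : ℝ) ^ 2)))
        ≤ Real.exp 2 ^ (N * D) * Real.exp (-((N : ℝ) / (2 * Z) * p / (4 * (Z : ℝ) ^ 2))) := by
          gcongr
      _ = Real.exp (2 * (N * D) - (N : ℝ) * p / (8 * (Z : ℝ) ^ 3)) := by
          rw [← Real.exp_nat_mul, ← Real.exp_add]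
          congr 1
          push_cast
          field_simp
          ring
      _ ≤ Real.exp (-((N : ℝ) * p / (16 * (Z : ℝ) ^ 3))) := by
          apply Real.exp_le_exp.2
          have e1 : (D : ℝ) ≤ p / (32 * (Z : ℝ) ^ 3) := by
            rw [le_div_iff₀ (by positivity)]
            exact hDp
          have e2 : (2 : ℝ) * (N * D) ≤ 2 * (N * (p / (32 * (Z : ℝ) ^ 3))) := by gcongr
          have e3 : (2 : ℝ) * (N * (p / (32 * (Z : ℝ) ^ 3))) - (N : ℝ) * p / (8 * (Z : ℝ) ^ 3) =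
              -((N : ℝ) * p / (16 * (Z : ℝ) ^ 3)) := by
            field_simp
            ring
          linarith

end Pool.Agent.Helper81.HL
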